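import Pool.Agent.Q331.RT.Stab

/-!
# Stabbing queries on R-trees cost `Ω((N / B) ^ (1 - 1 / d))`

The objects are divided into `K ^ d` cells `c : Fin d → Fin K` with at most `P` objects each, where
`P` is less than the least number of objects in a leaf.  The box of an object of cell `c` is (up to
a small perturbation) the product of the intervals `[-c s, K - c (s - 1)]`.  The query `(s, i)` has
the coordinate `-(i + 1/2)` on axis `s`, the coordinate `K - i - 1/2` on axis `s + 1` and `0` on the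
other ones.  It lies in no box, but it lies in the bounding box of every set of objects that contains
objects with `c s ≤ i` and with `c s > i`.  Every leaf contains objects of two cells, hence it is
visited by one of the `d (K - 1)` queries.
-/

open Finset Pool.Agent.Q331.RT

namespace Pool.Agent.Results.MP_a7848c_lc.StabbingLowerBound

theorem exists_two {N P : ℕ} (hP : 0 < P) {X : Finset (Fin N)} (hX : P < X.card) :
    ∃ a ∈ X, ∃ b ∈ X, (a : ℕ) / P ≠ (b : ℕ) / P := by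
  by_contra hcon
  push Not at hcon
  have : X.card ≤ (range P).card := by
    apply Finset.card_le_card_of_injOn (fun j : Fin N => (j : ℕ) % P)
    · intro j _
      exact mem_coe.2 (mem_range.2 (Nat.mod_lt _ hP))
    · intro a ha b hb hab
      have h1 := hcon a ha b hb
      simp only at hab
      apply Fin.ext
      rw [← Nat.div_add_mod (a : ℕ) P, ← Nat.div_add_mod (b : ℕ) P, h1, hab]
  rw [card_range] at this
  omega

theorem leafHit_of_occ {ι : Type} [DecidableEq ι] {d : ℕ} {S : ι → Box d} {κ : Type}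
    {q : κ → Fin d → ℝ} {a b : ℝ} (hq : ∀ X : Finset ι, a ≤ X.card → ∃ x, q x ∈ bbox S X) {h : ℕ}
    {T : Tree ι h} (hT : Occ a b T) : LeafHit S q T := by
  induction T with
  | leaf s => exact hq s hT.1
  | node m f ih => exact fun j => ih j (hT.2.2 j)

theorem rootHit_of_isRTree {ι : Type} [DecidableEq ι] {d : ℕ} {S : ι → Box d} {κ : Type}
    {q : κ → Fin d → ℝ} {a b : ℝ} (hq : ∀ X : Finset ι, a ≤ X.card → ∃ x, q x ∈ bbox S X) {h : ℕ}
    {T : Tree ι h} (hT : IsRTree a b T) : RootHit S q T := by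
  cases T with
  | leaf s => trivial
  | node m f => exact fun j => leafHit_of_occ hq (hT.2.2 j)

theorem one_le_stabCost {ι : Type} [DecidableEq ι] {d : ℕ} (S : ι → Box d) (q : Fin d → ℝ) {h : ℕ}
    (T : Tree ι h) : 1 ≤ stabCost S q T := by
  cases T with
  | leaf s => exact le_rfl
  | node m f => simp only [stabCost]; omega

/-- The combinatorial form of the lower bound. -/
theorem comb {e N P : ℕ} (hP : 0 < P) (hN : 0 < N) : ∃ K : ℕ, 1 ≤ K ∧
    (K - 1) ^ (e + 2) * P < N ∧ (K = 1 → N ≤ P) ∧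
    ∃ S : Fin N → Box (e + 2), Function.Injective S ∧
      ∀ (a b : ℝ), (P : ℝ) < a → ∀ (h : ℕ) (T : Tree (Fin N) h), IsRTree a b T →
        ∃ q : Fin (e + 2) → ℝ, (∀ i, q ∉ (S i).pts) ∧
          (2 ≤ K → nleaf T ≤ (e + 2) * (K - 1) * stabCost S q T) := by
  classical
  have hex : ∃ K, N ≤ K ^ (e + 2) * P := ⟨N, by
    calc N = N ^ 1 * 1 := by ring
      _ ≤ N ^ (e + 2) * P := Nat.mul_le_mul (Nat.pow_le_pow_right hN (by omega)) hP⟩
  obtain ⟨K, hK, hKmin⟩ : ∃ K, N ≤ K ^ (e + 2) * P ∧ ∀ k < K, ¬ N ≤ k ^ (e + 2) * P :=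
    ⟨Nat.find hex, Nat.find_spec hex, fun k hk => Nat.find_min hex hk⟩
  have hK1 : 1 ≤ K := by
    by_contra h0
    have : K = 0 := by omega
    rw [this] at hK
    simp at hK
    omega
  have hcell : ∀ j : Fin N, (j : ℕ) / P < K ^ (e + 2) := fun j => by
    rw [Nat.div_lt_iff_lt_mul hP]
    exact j.2.trans_le hK
  let c : Fin N → Fin (e + 2) → Fin K := fun j => finFunctionFinEquiv.symm ⟨(j : ℕ) / P, hcell j⟩
  have hc : ∀ i j, c i = c j → (i : ℕ) / P = (j : ℕ) / P := fun i j h => by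
    have := finFunctionFinEquiv.symm.injective h
    exact congrArg Fin.val this
  let S : Fin N → Box (e + 2) := fun j => hardBox K N (c j) j
  refine ⟨K, hK1, ?_, ?_, S, ?_, ?_⟩
  · exact not_le.1 (hKmin (K - 1) (by omega))
  · intro h
    rw [h] at hK
    simpa using hK
  · intro i j hij
    have h1 : ∀ s, c i s = c j s := by
      intro s
      have h2 := congrFun (congrArg Box.hi hij) (s + 1)
      simp only [S, hardBox, add_sub_cancel_right] at h2
      have h3 : ((c i s : ℕ) : ℝ) = (c j s : ℕ) := by linarith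
      exact Fin.ext (by exact_mod_cast h3)
    have h2 := congrFun (congrArg Box.lo hij) 0
    simp only [S, hardBox, h1] at h2
    have h3 : ((i : ℕ) : ℝ) / (2 * N + 1) = (j : ℕ) / (2 * N + 1) := by linarith
    rw [div_left_inj' (by positivity)] at h3
    exact Fin.ext (by exact_mod_cast h3)
  · intro a b hPa h T hT
    rcases lt_or_ge K 2 with hK2 | hK2
    · refine ⟨fun _ => K + 1, ?_, fun h => by omega⟩
      intro i hi
      have h1 := (hi 0).2
      simp only [S, hardBox] at h1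
      have : (0 : ℝ) ≤ ((c i (0 - 1) : ℕ) : ℝ) := Nat.cast_nonneg _
      linarith
    · have : Nonempty (Fin (e + 2) × Fin (K - 1)) := ⟨(0, ⟨0, by omega⟩)⟩
      have hq : ∀ X : Finset (Fin N), a ≤ X.card → ∃ x, hardQ K x ∈ bbox S X := by
        intro X hX
        have h1 : P < X.card := by
          have : (P : ℝ) < X.card := hPa.trans_le hX
          exact_mod_cast this
        obtain ⟨i, hi, j, hj, hij⟩ := exists_two hP h1
        have h2 : c i ≠ c j := fun h => hij (hc i j h)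
        obtain ⟨s, hs⟩ := Function.ne_iff.1 h2
        rcases lt_or_gt_of_ne hs with h3 | h3
        · exact mem_hard (N := N) (f := fun j : Fin N => (j : ℕ)) (fun _ => rfl) hi hj h3
        · exact mem_hard (N := N) (f := fun j : Fin N => (j : ℕ)) (fun _ => rfl) hj hi h3
      obtain ⟨x, hx⟩ := Finite.exists_max fun x : Fin (e + 2) × Fin (K - 1) =>
        stabCost S (hardQ K x) T
      refine ⟨hardQ K x, fun i => not_mem_hard (c i) i.2 x, fun _ => ?_⟩
      calc nleaf T ≤ ∑ x, stabCost S (hardQ K x) T := nleaf_le_sum (rootHit_of_isRTree hq hT)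
        _ ≤ ∑ _x : Fin (e + 2) × Fin (K - 1), stabCost S (hardQ K x) T :=
            Finset.sum_le_sum fun y _ => hx y
        _ = _ := by simp

theorem main (d : ℕ) (hd : 2 ≤ d) (a₁ a₂ : ℝ) (ha₁ : 0 < a₁) (ha₂ : 0 < a₂) :
    ∃ c : ℝ, 0 < c ∧ ∀ B N : ℕ, 1 < a₁ * B → 1 ≤ N → ∃ S : Fin N → Box d, Function.Injective S ∧
      ∀ (h : ℕ) (T : Tree (Fin N) h), IsRTree (a₁ * B) (a₂ * B) T →
        ∃ q : Fin d → ℝ, (∀ i, q ∉ (S i).pts) ∧
          c * ((N : ℝ) / B) ^ (1 - 1 / (d : ℝ)) ≤ stabCost S q T := by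
  obtain ⟨e, rfl⟩ : ∃ e, d = e + 2 := ⟨d - 2, by omega⟩
  set D : ℝ := ((e + 2 : ℕ) : ℝ) with hD
  have hD0 : 0 < D := by rw [hD]; positivity
  have hD1 : 1 / D ≤ 1 := by
    rw [div_le_one hD0, hD]
    have : 1 ≤ e + 2 := by omega
    exact_mod_cast this
  set A : ℝ := a₂ * D * (2 / a₁) ^ (1 / D) with hA
  have hA0 : 0 < A := by positivity
  set A' : ℝ := a₁ ^ (1 - 1 / D) with hA'
  have hA'0 : 0 < A' := by positivity
  refine ⟨min (1 / A) (1 / A'), by positivity, fun B N hB hN => ?_⟩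
  have hB0 : (0 : ℝ) < B := by
    by_contra h0
    have h1 : (B : ℝ) ≤ 0 := not_lt.1 h0
    nlinarith
  obtain ⟨P, hP1, hP2, hP3⟩ : ∃ P : ℕ, 0 < P ∧ (P : ℝ) < a₁ * B ∧ a₁ * B ≤ 2 * P := by
    refine ⟨⌈a₁ * B⌉₊ - 1, ?_, ?_, ?_⟩
    · have : 1 < ⌈a₁ * B⌉₊ := Nat.lt_ceil.2 (by exact_mod_cast hB)
      omega
    · have h1 : 1 < ⌈a₁ * B⌉₊ := Nat.lt_ceil.2 (by exact_mod_cast hB)
      rw [Nat.cast_sub h1.le]
      have := Nat.ceil_lt_add_one (by linarith : 0 ≤ a₁ * B)
      push_cast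
      linarith
    · have h1 : 1 < ⌈a₁ * B⌉₊ := Nat.lt_ceil.2 (by exact_mod_cast hB)
      rw [Nat.cast_sub h1.le]
      have h2 := Nat.le_ceil (a₁ * B)
      have h3 : (2 : ℝ) ≤ ⌈a₁ * B⌉₊ := by exact_mod_cast h1
      push_cast
      linarith
  obtain ⟨K, hK1, hK2, hK3, S, hS, hmain⟩ := comb (e := e) hP1 (by omega : 0 < N)
  refine ⟨S, hS, fun h T hT => ?_⟩
  obtain ⟨q, hq1, hq2⟩ := hmain _ _ hP2 h T hT
  refine ⟨q, hq1, ?_⟩
  set x : ℝ := (N : ℝ) / B with hx
  have hN0 : (0 : ℝ) < N := by exact_mod_cast hN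
  have hx0 : 0 < x := by positivity
  have hxp : 0 < x ^ (1 - 1 / D) := Real.rpow_pos_of_pos hx0 _
  rcases lt_or_ge K 2 with hK | hK
  · have hK' : K = 1 := by omega
    have h1 : (N : ℝ) ≤ P := by exact_mod_cast hK3 hK'
    have h2 : x ≤ a₁ := by
      rw [hx, div_le_iff₀ hB0]; linarith
    have h3 : x ^ (1 - 1 / D) ≤ A' := Real.rpow_le_rpow hx0.le h2 (by linarith)
    have h4 : (1 : ℝ) ≤ stabCost S q T := by exact_mod_cast one_le_stabCost S q T
    refine le_trans ?_ h4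
    calc min (1 / A) (1 / A') * x ^ (1 - 1 / D) ≤ 1 / A' * A' := by
          gcongr
          exact min_le_right _ _
      _ = 1 := by field_simp
  · have h1 := hT.card_le
    rw [Fintype.card_fin] at h1
    have h2 : (nleaf T : ℝ) ≤ D * ((K - 1 : ℕ) : ℝ) * stabCost S q T := by
      rw [hD]; exact_mod_cast hq2 hK
    -- the bound for `K - 1`
    have h3 : ((K - 1 : ℕ) : ℝ) ^ (e + 2) * P < N := by exact_mod_cast hK2
    have h4 : ((K - 1 : ℕ) : ℝ) ^ D ≤ 2 / a₁ * x := by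
      rw [hD, Real.rpow_natCast, hx, div_mul_div_comm, le_div_iff₀ (by positivity)]
      have : ((K - 1 : ℕ) : ℝ) ^ (e + 2) * (a₁ * B) ≤ ((K - 1 : ℕ) : ℝ) ^ (e + 2) * (2 * P) := by
        gcongr
      linarith
    have h5 : ((K - 1 : ℕ) : ℝ) ≤ (2 / a₁) ^ (1 / D) * x ^ (1 / D) := by
      have h6 := Real.rpow_le_rpow (z := 1 / D) (by positivity) h4 (by positivity)
      rwa [← Real.rpow_mul (by positivity), mul_one_div_cancel hD0.ne', Real.rpow_one,
        Real.mul_rpow (by positivity) hx0.le] at h6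
    have h6 : x ^ (1 - 1 / D) * x ^ (1 / D) = x := by
      rw [← Real.rpow_add hx0]; simp
    have hxd : 0 < x ^ (1 / D) := Real.rpow_pos_of_pos hx0 _
    have h7 : x ≤ A * x ^ (1 / D) * stabCost S q T := by
      rw [hx, div_le_iff₀ hB0, ← hx]
      calc (N : ℝ) ≤ a₂ * B * nleaf T := h1
        _ ≤ a₂ * B * (D * ((K - 1 : ℕ) : ℝ) * stabCost S q T) := by gcongr
        _ ≤ a₂ * B * (D * ((2 / a₁) ^ (1 / D) * x ^ (1 / D)) * stabCost S q T) := by gcongr
        _ = A * x ^ (1 / D) * stabCost S q T * B := by rw [hA]; ring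
    have h8 : x ^ (1 - 1 / D) ≤ A * stabCost S q T := by
      have h9 : x ^ (1 - 1 / D) * x ^ (1 / D) ≤ A * stabCost S q T * x ^ (1 / D) := by
        rw [h6]; linarith
      exact le_of_mul_le_mul_right h9 hxd
    calc min (1 / A) (1 / A') * x ^ (1 - 1 / D) ≤ 1 / A * (A * stabCost S q T) := by
          gcongr
          exact min_le_left _ _
      _ = stabCost S q T := by field_simp

/-- **Stabbing queries on R-trees cost `Ω((N / B) ^ (1 - 1 / d))` node visits.**  Let `d ≥ 2` and let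
`a₁`, `a₂` be the constants in `Θ(B)`.  (1) There is `c > 0` such that for all `N ≥ 1` and all `B`
with `a₁ B > 1` there is a set of `N` distinct boxes in `ℝ ^ d` such that every R-tree on it has a
stabbing query that reports nothing and visits at least `c (N / B) ^ (1 - 1 / d)` nodes.  (2) Hence,
if every set of `N` boxes admits an R-tree on which every stabbing query `q` costs at most
`C (f(N, B) + T(q) / B)`, where `T(q)` is the number of boxes that contain `q`, then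
`f(N, B) ≥ c' (N / B) ^ (1 - 1 / d)` for some `c' > 0`. -/
theorem result (d : ℕ) (hd : 2 ≤ d) (a₁ a₂ : ℝ) (ha₁ : 0 < a₁) (ha₂ : 0 < a₂) :
    (∃ c : ℝ, 0 < c ∧ ∀ B N : ℕ, 1 < a₁ * B → 1 ≤ N → ∃ S : Fin N → Box d, Function.Injective S ∧
      ∀ (h : ℕ) (T : Tree (Fin N) h), IsRTree (a₁ * B) (a₂ * B) T →
        ∃ q : Fin d → ℝ, (∀ i, q ∉ (S i).pts) ∧
          c * ((N : ℝ) / B) ^ (1 - 1 / (d : ℝ)) ≤ stabCost S q T) ∧
    ∀ f : ℕ → ℕ → ℝ, (∃ C : ℝ, 0 < C ∧ ∀ B N : ℕ, 1 < a₁ * B → 1 ≤ N →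
        ∀ S : Fin N → Box d, Function.Injective S →
          ∃ (h : ℕ) (T : Tree (Fin N) h), IsRTree (a₁ * B) (a₂ * B) T ∧ ∀ q : Fin d → ℝ,
            (stabCost S q T : ℝ) ≤ C * (f N B + ({i | q ∈ (S i).pts}.ncard : ℝ) / B)) →
      ∃ c' : ℝ, 0 < c' ∧ ∀ B N : ℕ, 1 < a₁ * B → 1 ≤ N →
        c' * ((N : ℝ) / B) ^ (1 - 1 / (d : ℝ)) ≤ f N B := by
  obtain ⟨c, hc, h⟩ := main d hd a₁ a₂ ha₁ ha₂
  refine ⟨⟨c, hc, h⟩, ?_⟩
  rintro f ⟨C, hC, hf⟩
  refine ⟨c / C, by positivity, fun B N hB hN => ?_⟩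
  obtain ⟨S, hS, hS2⟩ := h B N hB hN
  obtain ⟨hh, T, hT, hT2⟩ := hf B N hB hN S hS
  obtain ⟨q, hq1, hq2⟩ := hS2 hh T hT
  have h1 := hT2 q
  have h2 : {i | q ∈ (S i).pts} = ∅ := by
    ext i; simp [hq1 i]
  rw [h2, Set.ncard_empty] at h1
  simp only [Nat.cast_zero, zero_div, add_zero] at h1
  have h3 := hq2.trans h1
  rw [div_mul_eq_mul_div, div_le_iff₀ hC]
  linarith

end Pool.Agent.Results.MP_a7848c_lc.StabbingLowerBound
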